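import Pool.Agent.H369R2.TD.Num
import Pool.Agent.TH485.Uni.Main

/-! The numerical constants of the determinant code with the improved small systems. -/

set_option autoImplicit false

open Finset Filter

namespace Pool.Agent.U454.DC1

open Pool.Agent.H369R2.TD Pool.Agent.TH485.Uni

/-- the constants `c j = j * t(j, j-1)` -/
noncomputable def cc (j : ℕ) : ℝ := (g j : ℝ) / 100000

theorem cc_zero : cc 0 = 0 := by norm_num [cc, g, cN]

theorem dn_mul (m : ℕ) : ((m : ℝ) + 1) * dn m = cc (m + 1) := by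
  unfold dn cc
  have h1 : (0 : ℝ) < (m : ℝ) + 1 := by positivity
  field_simp

theorem dn_mul_le (m : ℕ) : ((m : ℝ) + 1) * dn m ≤ 26231 / 10000 := by
  rw [dn_mul]
  unfold cc
  have h : g (m + 1) ≤ 262307 := by
    rcases Nat.lt_or_ge (m + 1) 64 with h | h
    · have key : ∀ j < 64, g j ≤ 262307 := by decide
      exact key _ h
    · rw [g_big h]; norm_num
  have h2 : (g (m + 1) : ℝ) ≤ 262307 := by exact_mod_cast h
  linarith

theorem exp7_lo : 1096633 / 1000 < Real.exp 7 := by
  have h1 : Real.exp 7 = Real.exp 1 ^ 7 := by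
    rw [← Real.exp_nat_mul]; norm_num
  have h2 := Real.exp_one_gt_d9
  rw [h1]
  calc (1096633 / 1000 : ℝ) < 2.7182818283 ^ 7 := by norm_num
    _ < _ := by gcongr

theorem exp7_up : Real.exp 7 < 1096634 / 1000 := by
  have h1 : Real.exp 7 = Real.exp 1 ^ 7 := by
    rw [← Real.exp_nat_mul]; norm_num
  have h2 := Real.exp_one_lt_d9
  rw [h1]
  calc Real.exp 1 ^ 7 < 2.7182818286 ^ 7 := by gcongr
    _ < _ := by norm_num

theorem psi_num : Real.exp (-7) * Psi 22 cc (26231 / 10000) (70001 / 10000) ≤ 18062 / 10000 := by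
  have hE : (0 : ℝ) < Real.exp (-7) := Real.exp_pos _
  have hlow : (1000 : ℝ) / 1096634 ≤ Real.exp (-7) := by
    rw [Real.exp_neg, ← one_div, div_le_div_iff₀ (by norm_num) (Real.exp_pos _)]
    have := exp7_up
    linarith
  have hx : Real.exp (-7) * Real.exp (70001 / 10000) = Real.exp (1 / 10000) := by
    rw [← Real.exp_add]; norm_num
  have hS : ∑ j ∈ range 22, (cc j - 26231 / 10000) * ((70001 / 10000 : ℝ) ^ j / (j.factorial : ℝ))
      ≤ - (89619 / 100) := by
    simp only [Finset.sum_range_succ, Finset.sum_range_zero, cc, g, cN]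
    norm_num [Nat.factorial]
  rw [Psi, mul_add]
  have h1 : Real.exp (-7) * (26231 / 10000 * Real.exp (70001 / 10000))
      = 26231 / 10000 * Real.exp (1 / 10000) := by
    rw [← hx]; ring
  rw [h1]
  have h2 := exp_small
  have h3 : Real.exp (-7) * ∑ j ∈ range 22, (cc j - 26231 / 10000) * ((70001 / 10000 : ℝ) ^ j / (j.factorial : ℝ))
      ≤ (1000 : ℝ) / 1096634 * (- (89619 / 100)) := by
    nlinarith
  linarith

theorem tur_1919 : ∀ᶠ r : ℕ in atTop, Tur r ((1919 / 1000) / ((r : ℝ) + 1)) := by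
  have hP : Real.exp (-7) ≤ 9119 / 10000000 := by
    rw [Real.exp_neg, ← one_div, div_le_div_iff₀ (Real.exp_pos _) (by norm_num)]
    have := exp7_lo
    linarith
  refine asymptotic (δ := dn) (c := cc) (J := 22) (K := 26231 / 10000) tur_dn dn_nonneg cc_zero
    (fun m _ => (dn_mul m).le) dn_mul_le (by norm_num) (y₁ := 7) (x₁ := 70001 / 10000) (y₂ := 7)
    (x₂ := 70001 / 10000) (lam := 9707 / 10000) (D₁ := 18062 / 10000) (D₂ := 18062 / 10000)
    (P₁ := 9119 / 10000000) (P₂ := 9119 / 10000000)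
    (by norm_num) (by norm_num) (by norm_num) (by norm_num) (by norm_num) (by norm_num)
    psi_num psi_num hP (by norm_num) hP (by norm_num) ?_
  norm_num

end Pool.Agent.U454.DC1
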